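import Pool.Agent.H.MP_bec853_al.A

namespace Pool.Agent.Results.MP_bec853_al.Upper

open Pool.Agent.H.MP_bec853_al

theorem result (r : ℕ) (hr : 3 ≤ r) : ∃ C : ℝ, ∀ n : ℕ,
    (Set.ncard {u : FreeGroup (Fin r) | u.toWord.length = n ∧
      ∃ φ : MulAut (FreeGroup (Fin r)), ∀ t ∈ (φ u).toWord, t.2 = true} : ℝ) ≤
      C * (2 * r - 2 + 1 / (r - 1)) ^ n := by
  obtain ⟨C, h⟩ := cnt4 hr
  refine ⟨C, fun n => ?_⟩
  obtain ⟨F, f1, f2⟩ := h n
  refine le_trans (Nat.cast_le.2 ?_) f1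
  rw [← Set.ncard_coe_finset]
  refine Set.ncard_le_ncard_of_injOn FreeGroup.toWord ?_ FreeGroup.toWord_injective.injOn
  rintro u ⟨a, φ, b⟩
  exact f2 _ a ⟨FreeGroup.isReduced_toWord, φ, (⟨0, by omega⟩, false), fun e => by
    rw [FreeGroup.mk_toWord] at e
    simpa using b _ e⟩

end Pool.Agent.Results.MP_bec853_al.Upper
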